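import Mathlib
import Pool.Agent.L7h72.HB.Stm
import Pool.Agent.N798.S.Stm

set_option autoImplicit false

/-!
# Project CM: `S_f(x) = O(x^(1/3 - 1/50000))` for all newforms with complex multiplication

Target: HARD anchor MP_a009d0_nt (last slot).  The coefficients of a newform with complex multiplication
by an imaginary quadratic field are sums over lattices,
`lam n = ∑_j ∑_{p ∈ ℤ², |z_j(p)|² = n} c_j(p) (z_j(p) / |z_j(p)|)^l`, `z_j(p) = p.1 ω_j + p.2 ω'_j`,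
`c_j` periodic (`IsCM`).  Hence `∑_{n ≤ M} lam n e(θ √n)` is a sum over the lattice points `|z| ≤ X = √M`
with the phase `θ |z|`.  On a row (a line of lattice points with the same remainder) the phase is
`θ √((A + B w)² + t²)`, and for `X ≤ |θ| ≤ X^(7/2)` the derivative test of order six (`S_VD`, `q = 5`)
saves a power of `X` on each row, away from the zeros of the sixth and the seventh derivative of
`√(1 + z²)` (S_EXP, S_ROW).  Summing over the rows: S_TH.  With the smoothed Voronoi formula of project HB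
(helper72) this gives the exponent `1/3 - c` (helper44).

Everything is used with `e(x) = ex x = exp(2 π i x)`.
-/

namespace Pool.Agent.L7h44.CM

open Finset
open Pool.Agent.L7h72.HB (ex)

/-- the direction of `s + i t` -/
noncomputable def dir (s t : ℝ) : ℂ := ((s : ℂ) + (t : ℂ) * Complex.I) / ((√(s ^ 2 + t ^ 2) : ℝ) : ℂ)

/-- the zeros of the sixth and of the seventh derivative of `√(1 + z²)`:
`(d/dz)^6 √(1+z²) = 45 (8 z⁴ - 12 z² + 1) (1+z²)^(-11/2)`,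
`(d/dz)^7 √(1+z²) = -315 z (8 z⁴ - 20 z² + 5) (1+z²)^(-13/2)` -/
noncomputable def bad : Finset ℝ :=
  {√((3 + √7) / 4), -√((3 + √7) / 4), √((3 - √7) / 4), -√((3 - √7) / 4), 0,
    √((5 + √15) / 4), -√((5 + √15) / 4), √((5 - √15) / 4), -√((5 - √15) / 4)}

/-- [EXP] exponential sums on good intervals of a row.  `S_VD` (proved: `Pool.Agent.N701.S.vd`) with `q = 5`,
`N = ⌈X / B⌉₊ + 1`, `u = N` (`L ≤ 2 X / B ≤ 2 N`), `Z = 2 π |θ| X` (so `√N ≤ Z ≤ N ^ 5` for `X ≥ X₀(B)`; for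
`X < X₀` the sum has at most `2 X₀ / B + 1` terms and the right side is at least `C`),
`φ m x = sgn θ * B ^ m * H m t (A + B (x - N)) / X`,
`H m t s = p_m (s / t) (1 + (s / t)²) ^ (1/2 - m) t ^ (1 - m)`, `H 0 t s = √(s² + t²)`,
`p₀ = 1, p₁ = z, p₂ = 1, p₃ = -3 z, p₄ = 12 z² - 3, p₅ = -60 z³ + 45 z, p₆ = 45 (8 z⁴ - 12 z² + 1)`,
`p₇ = -315 z (8 z⁴ - 20 z² + 5)` (`p_(m+1) = (1 + z²) p_m' + (1 - 2 m) z p_m`), `(H m t)' = H (m+1) t`.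
With `z = s / t`, `|z| ≤ 1 / ρ`: `|p₆ z| ≥ 360 ρ ^ 4` (four real zeros, all in `bad`), `(B N)^6 t^(-5) / X ≥ 1`,
`(1 + z²)^(-11/2) ≥ c ρ ^ 11`: `c0 = c ρ ^ 15`; `C0 = C ρ ^ (-5)`; the signs of `p₆`, `p₇` are constant on the
interval, since they have no zeros there.  `1 - 1 / ((5 + 2) 2 ^ 5) = 1 - 1 / 224`. -/
def S_EXP : Prop := ∀ B : ℝ, 0 < B → ∃ C : ℝ, 0 < C ∧ ∀ (X θ t A ρ : ℝ) (L : ℕ), 1 ≤ X → X ≤ |θ| →
  |θ| ≤ X ^ (7 / 2 : ℝ) → 0 < ρ → ρ ≤ 1 → ρ * X ≤ t → t ≤ X →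
  (∀ x ∈ Set.Icc (0 : ℝ) L, |A + B * x| ≤ X ∧ ∀ z ∈ bad, ρ * t ≤ |A + B * x - z * t|) →
  ‖∑ n ∈ range L, ex (θ * √((A + B * n) ^ 2 + t ^ 2))‖ ≤ C * (ρ⁻¹ ^ 20 * X ^ (1 - 1 / 224 : ℝ))

/-- [ROW] whole rows, with the weight `dir ^ l`.  `ρ = X ^ (-1/5000)`.  `S_SPL` (proved:
`Pool.Agent.N75.S.spl`) for `f n = dir (A + B n) t ^ l * ex (...)`, the points `(z |t| - A) / B`, `z ∈ bad`, and
the radius `ρ |t| / B` (`range L` is `{0}` and `Ioc 0 (L - 1)`).  On a good interval `(A', B']`: the last term is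
split off, and Abel summation with the sums of S_EXP for the initial segments:
`‖dir s t - dir s' t‖ ≤ 2 |s - s'| / |t|`, `‖a ^ l - b ^ l‖ ≤ l ‖a - b‖`, at most `2 X / B + 1` steps of length `B`,
so the total variation of the weight is at most `C / ρ`; together
`C (ρ ^ (-21) X ^ (1 - 1/224) + ρ X + 1) ≤ C' X ^ (1 - 1/5000)` as `22 / 5000 < 1 / 224`. -/
def S_ROW : Prop := ∀ (l : ℕ) (B : ℝ), 0 < B → ∃ C : ℝ, 0 < C ∧ ∀ (X θ t A : ℝ) (L : ℕ), 1 ≤ X → X ≤ |θ| →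
  |θ| ≤ X ^ (7 / 2 : ℝ) → X ^ (1 - 1 / 5000 : ℝ) ≤ |t| → |t| ≤ X →
  (∀ n : ℕ, n < L → |A + B * n| ≤ X) →
  ‖∑ n ∈ range L, dir (A + B * n) t ^ l * ex (θ * √((A + B * n) ^ 2 + t ^ 2))‖ ≤ C * X ^ (1 - 1 / 5000 : ℝ)

/-- the lattice point with the coordinates `p` -/
noncomputable def pt (ω ω' : ℂ) (p : ℤ × ℤ) : ℂ := (p.1 : ℂ) * ω + (p.2 : ℂ) * ω'

/-- [TH] sums over lattice points.  With `e = ω' / |ω'|`: `pt p = e (s + i t)`, `s = p.1 σ + p.2 |ω'|`,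
`t = p.1 τ`, `τ = Im (ω conj ω') / |ω'| ≠ 0`.  Finite support (`|p.1| ≤ X / |τ|`, then `|p.2| ≤ C X`), so the
`tsum` is a finite sum over a box; for fixed `p.1` put `p.2 = q w + r`, `0 ≤ r < q`: `c p.1 p.2 = c p.1 r`, and the
`w` with `|pt p| ≤ X` are the integers of an interval (`|A + B w| ≤ √(X² - t²)`, `A = p.1 σ + r |ω'|`,
`B = q |ω'|`), so S_ROW applies (with `X`) if `|t| ≥ X ^ (1 - 1/5000)`; the other rows (`|p.1| ≤ C X ^ (1 - 1/5000)`)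
have at most `C X` points each. -/
def S_TH : Prop := ∀ (l q : ℕ) (ω ω' : ℂ) (c : ℤ → ℤ → ℂ), 0 < q → ((starRingEnd ℂ) ω * ω').im ≠ 0 →
  (∀ u v : ℤ, c (u + q) v = c u v ∧ c u (v + q) = c u v) → ∃ C : ℝ, 0 < C ∧
  ∀ X θ : ℝ, 1 ≤ X → X ≤ |θ| → |θ| ≤ X ^ (7 / 2 : ℝ) →
  ‖∑' p : ℤ × ℤ, (if p ≠ 0 ∧ ‖pt ω ω' p‖ ≤ X then
    c p.1 p.2 * (pt ω ω' p / (‖pt ω ω' p‖ : ℂ)) ^ l * ex (θ * ‖pt ω ω' p‖) else 0)‖ ≤
      C * X ^ (2 - 1 / 5000 : ℝ)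

/-- the number of the points of norm at most `X`, for the trivial bound (part of [TH]) -/
def S_CNT : Prop := ∀ ω ω' : ℂ, ((starRingEnd ℂ) ω * ω').im ≠ 0 → ∃ C : ℝ, 0 < C ∧ ∀ X : ℝ, 1 ≤ X →
  {p : ℤ × ℤ | ‖pt ω ω' p‖ ≤ X}.Finite ∧ ({p : ℤ × ℤ | ‖pt ω ω' p‖ ≤ X}.ncard : ℝ) ≤ C * X ^ 2

/-- The coefficients of a form with complex multiplication: sums over the points of finitely many lattices in
the plane, whose points have integral norms `|z|²`, with periodic coefficients and the weight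
`(z / |z|) ^ l`. -/
def IsCM (l : ℕ) (lam : ℕ → ℂ) : Prop :=
  ∃ (J q : ℕ) (ω ω' : Fin J → ℂ) (c : Fin J → ℤ → ℤ → ℂ), 0 < q ∧
    (∀ j, ((starRingEnd ℂ) (ω j) * ω' j).im ≠ 0) ∧
    (∀ j p, ∃ m : ℕ, ‖pt (ω j) (ω' j) p‖ ^ 2 = m) ∧
    (∀ j (u v : ℤ), c j (u + q) v = c j u v ∧ c j u (v + q) = c j u v) ∧
    ∀ n : ℕ, 1 ≤ n → lam n = ∑ j, ∑' p : ℤ × ℤ, if ‖pt (ω j) (ω' j) p‖ ^ 2 = (n : ℝ) then
      c j p.1 p.2 * (pt (ω j) (ω' j) p / (‖pt (ω j) (ω' j) p‖ : ℂ)) ^ l else 0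

/-- [SUM] from S_TH (`X = √M`) and S_CNT (finite support, so that the sums can be exchanged): every lattice
point `p ≠ 0` with `|pt p| ≤ √M` has `|pt p|² = n` for exactly one `n` in `[1, M]`, and `√n = |pt p|`. -/
def S_SUM : Prop := ∀ (l : ℕ) (lam : ℕ → ℂ), IsCM l lam → ∃ C : ℝ, 0 < C ∧ ∀ (M : ℕ) (θ : ℝ), 1 ≤ M →
  √(M : ℝ) ≤ |θ| → |θ| ≤ (M : ℝ) ^ (7 / 4 : ℝ) →
  ‖∑ n ∈ Icc 1 M, lam n * ex (θ * √(n : ℝ))‖ ≤ C * (M : ℝ) ^ (1 - 1 / 10000 : ℝ)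

end Pool.Agent.L7h44.CM
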